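import Pool.Agent.CRT.Stmts

/-!
# Squad CRT, row NUL: sets of directions which are not small infinitely often
-/

namespace Pool.Agent.CRT.H58

open Set Filter Topology MeasureTheory

theorem exc_meas (Φ : Set (ℝ × ℝ)) (hΦ : MeasurableSet Φ) (w : ℝ × ℝ) (t : ℝ) :
    MeasurableSet (Exc Φ w t) := by
  have h : Measurable fun x : ℝ => (x, t / Real.sqrt (1 + w.1 * x + w.2 * x ^ 2)) := by
    fun_prop
  exact measurableSet_Icc.inter (h hΦ.compl)

theorem nul : NulStmt := by
  intro Φ w t hΦ hl hae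
  have hm : ∀ i, MeasurableSet (Exc Φ w (t i)) := fun i => exc_meas Φ hΦ w (t i)
  obtain ⟨A, hA⟩ : ∃ A : ℕ → Set ℝ, A = fun n => ⋃ i, Exc Φ w (t (n + i)) := ⟨_, rfl⟩
  have hAm : ∀ n, MeasurableSet (A n) := by
    intro n
    rw [hA]
    exact MeasurableSet.iUnion fun i => hm _
  have hAnti : Antitone A := by
    intro a b hab
    rw [hA]
    intro x hx
    obtain ⟨i, hi⟩ := mem_iUnion.1 hx
    refine mem_iUnion.2 ⟨b - a + i, ?_⟩
    have e : a + (b - a + i) = b + i := by omega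
    rw [e]
    exact hi
  have hsub : ∀ n, A n ⊆ Icc (-1 : ℝ) 1 := by
    intro n x hx
    rw [hA] at hx
    obtain ⟨i, hi⟩ := mem_iUnion.1 hx
    exact hi.1
  have hfin : ∃ n, volume (A n) ≠ ⊤ :=
    ⟨0, ne_top_of_le_ne_top (by rw [Real.volume_Icc]; exact ENNReal.ofReal_ne_top)
      (measure_mono (hsub 0))⟩
  have hlim := tendsto_measure_iInter_atTop (μ := volume) (fun n => (hAm n).nullMeasurableSet)
    hAnti hfin
  have h0 : volume (⋂ n, A n) = 0 := by
    have h1 : (⋂ n, A n) ⊆ {x | ¬ ∀ᶠ i in atTop, x ∉ Exc Φ w (t i)} := by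
      intro x hx hev
      obtain ⟨N, hN⟩ := eventually_atTop.1 hev
      have h2 := mem_iInter.1 hx N
      rw [hA] at h2
      obtain ⟨i, hi⟩ := mem_iUnion.1 h2
      exact hN (N + i) (Nat.le_add_right N i) hi
    exact measure_mono_null h1 hae
  rw [h0] at hlim
  have hge : ∀ᶠ n in atTop, ENNReal.ofReal (1 / 2500) ≤ volume (A n) := by
    filter_upwards [hl] with n hn
    refine hn.trans (measure_mono ?_)
    rw [hA]
    exact fun x hx => mem_iUnion.2 ⟨0, hx⟩
  have h3 := ge_of_tendsto hlim hge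
  rw [nonpos_iff_eq_zero, ENNReal.ofReal_eq_zero] at h3
  norm_num at h3

end Pool.Agent.CRT.H58
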