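import Pool.Agent.CRT.Stmts

/-!
# Squad CRT, row RDC: from the gap property of the visits to the gap property of the curves
-/

namespace Pool.Agent.CRT.H58

open Set Filter Topology MeasureTheory

/-- the algebra of one pair of points: `y = T² / σ²` -/
theorem key {m e L T a a' : ℝ} (hm : 1 ≤ m) (he : 0 < e)
    (hL : 15 * ((1 + 2 * m) * (2 * m)) ^ 3 * e ≤ L) (hT : 1 ≤ T) (ha : 1 / (2 * m) ≤ a)
    (ha' : 1 / (2 * m) ≤ a') (hb : a ≤ 1 + 2 * m) (hb' : a' ≤ 1 + 2 * m)
    (h : |T / a - T / a'| ≤ e ∨ L ≤ |T / a - T / a'|) :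
    |a ^ 2 - a' ^ 2| ≤ 2 * (1 + 2 * m) ^ 3 * e / T ∨
      14 * (2 * (1 + 2 * m) ^ 3 * e) / T < |a ^ 2 - a' ^ 2| := by
  have hT0 : 0 < T := by linarith
  have hq0 : 0 < 1 / (2 * m) := by positivity
  have ha0 : 0 < a := lt_of_lt_of_le hq0 ha
  have ha0' : 0 < a' := lt_of_lt_of_le hq0 ha'
  have hM : 0 < 1 + 2 * m := by linarith
  have hid : |a ^ 2 - a' ^ 2| = |T / a - T / a'| * (a * a' * (a + a')) / T := by
    have e1 : a ^ 2 - a' ^ 2 = -((T / a - T / a') * (a * a' * (a + a')) / T) := by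
      field_simp
      ring
    rw [e1, abs_neg, abs_div, abs_mul, abs_of_pos hT0,
      abs_of_pos (by positivity : 0 < a * a' * (a + a'))]
  have hup : a * a' * (a + a') ≤ 2 * (1 + 2 * m) ^ 3 := by
    have h1 : a * a' ≤ (1 + 2 * m) * (1 + 2 * m) := mul_le_mul hb hb' ha0'.le hM.le
    have h2 : a + a' ≤ 2 * (1 + 2 * m) := by linarith
    calc a * a' * (a + a') ≤ (1 + 2 * m) * (1 + 2 * m) * (2 * (1 + 2 * m)) :=
          mul_le_mul h1 h2 (by positivity) (by positivity)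
      _ = _ := by ring
  have hlo : 2 * (1 / (2 * m)) ^ 3 ≤ a * a' * (a + a') := by
    have h1 : (1 / (2 * m)) * (1 / (2 * m)) ≤ a * a' := mul_le_mul ha ha' hq0.le ha0.le
    have h2 : 2 * (1 / (2 * m)) ≤ a + a' := by linarith
    calc 2 * (1 / (2 * m)) ^ 3 = (1 / (2 * m)) * (1 / (2 * m)) * (2 * (1 / (2 * m))) := by ring
      _ ≤ a * a' * (a + a') := mul_le_mul h1 h2 (by positivity) (by positivity)
  rcases h with h | h
  · left
    rw [hid]
    refine div_le_div_of_nonneg_right ?_ hT0.le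
    calc |T / a - T / a'| * (a * a' * (a + a')) ≤ e * (2 * (1 + 2 * m) ^ 3) :=
          mul_le_mul h hup (by positivity) he.le
      _ = _ := by ring
  · right
    rw [hid]
    refine div_lt_div_of_pos_right ?_ hT0
    have hL0 : 0 ≤ L := le_trans (by positivity) hL
    calc 14 * (2 * (1 + 2 * m) ^ 3 * e) < 30 * (1 + 2 * m) ^ 3 * e := by
          have : 0 < (1 + 2 * m) ^ 3 * e := by positivity
          linarith
      _ = (15 * ((1 + 2 * m) * (2 * m)) ^ 3 * e) * (2 * (1 / (2 * m)) ^ 3) := by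
          field_simp
          ring
      _ ≤ L * (a * a' * (a + a')) := mul_le_mul hL hlo (by positivity) hL0
      _ ≤ |T / a - T / a'| * (a * a' * (a + a')) :=
          mul_le_mul_of_nonneg_right h (by positivity)

theorem rdc : RdcStmt := by
  intro m hm
  refine ⟨15 * ((1 + 2 * m) * (2 * m)) ^ 3, ?_, ?_⟩
  · have h1 : (1 : ℝ) ≤ (1 + 2 * m) * (2 * m) := by nlinarith
    have h2 := one_le_pow₀ (n := 3) h1
    linarith
  intro Φ e L he hL hG
  refine ⟨2 * (1 + 2 * m) ^ 3 * e, by positivity, ?_⟩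
  intro T hT Q P hQ
  choose! t w h1 h2 h3 h4 h5 using hQ
  refine ⟨fun s => toMeasurable volume (Exc Φ (w s) (t s)), fun s hs =>
    ⟨measurableSet_toMeasurable _ _, ?_⟩, ?_⟩
  · rw [measure_toMeasurable]
    exact (h5 s hs).le
  intro x hx s hs s' hs' hE hE'
  have hT0 : 0 < T := by linarith
  -- one point
  have hone : ∀ r ∈ Q, x ∉ toMeasurable volume (Exc Φ (w r) (t r)) →
      ∃ a : ℝ, 1 / (2 * m) ≤ a ∧ a ≤ 1 + 2 * m ∧ ev (P r) x = a ^ 2 ∧ (x, T / a) ∈ Φ := by
    intro r hr hxr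
    have hx1 : x ∉ Exc Φ (w r) (t r) := fun h => hxr (subset_toMeasurable _ _ h)
    have hΦ : (x, t r / Real.sqrt (1 + (w r).1 * x + (w r).2 * x ^ 2)) ∈ Φ := by
      by_contra hn
      exact hx1 ⟨hx, hn⟩
    obtain ⟨q, hq⟩ : ∃ q, q = 1 + (w r).1 * x + (w r).2 * x ^ 2 := ⟨_, rfl⟩
    rw [← hq] at hΦ
    obtain ⟨hw1, hw2, hw3⟩ := h3 r hr
    have hqlo : 1 / m ≤ q := hq ▸ hw3 x hx
    have hq0 : 0 < q := lt_of_lt_of_le (by positivity) hqlo
    have hxa : |x| ≤ 1 := abs_le.2 hx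
    have hqup : q ≤ 1 + 2 * m := by
      have a1 : (w r).1 * x ≤ m := by
        refine (le_abs_self _).trans ?_
        rw [abs_mul]
        calc |(w r).1| * |x| ≤ m * 1 := mul_le_mul hw1 hxa (abs_nonneg _) (by linarith)
          _ = m := mul_one m
      have a2 : (w r).2 * x ^ 2 ≤ m := by
        refine (le_abs_self _).trans ?_
        rw [abs_mul, abs_pow]
        calc |(w r).2| * |x| ^ 2 ≤ m * 1 :=
              mul_le_mul hw2 (pow_le_one₀ (abs_nonneg _) hxa) (by positivity) (by linarith)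
          _ = m := mul_one m
      rw [hq]
      linarith
    have ht0 : 0 < t r := lt_of_lt_of_le hT0 (h1 r hr)
    have hs0 : 0 < Real.sqrt q := Real.sqrt_pos.2 hq0
    have hu1 : T / t r ≤ 1 := by
      rw [div_le_one ht0]
      exact h1 r hr
    have hu2 : 1 / 2 ≤ T / t r := by
      rw [div_le_div_iff₀ (by norm_num) ht0]
      have := h2 r hr
      linarith
    refine ⟨T / t r * Real.sqrt q, ?_, ?_, ?_, ?_⟩
    · have b1 : 1 / m ≤ Real.sqrt q := by
        apply Real.le_sqrt_of_sq_le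
        refine le_trans ?_ hqlo
        rw [one_div]
        have : m⁻¹ ≤ 1 := inv_le_one_of_one_le₀ hm
        have h0 : 0 < m⁻¹ := by positivity
        nlinarith
      calc 1 / (2 * m) = 1 / 2 * (1 / m) := by field_simp
        _ ≤ T / t r * Real.sqrt q := mul_le_mul hu2 b1 (by positivity) (by positivity)
    · have b1 : Real.sqrt q ≤ 1 + 2 * m := by
        rw [Real.sqrt_le_left (by linarith)]
        nlinarith
      calc T / t r * Real.sqrt q ≤ 1 * (1 + 2 * m) :=
            mul_le_mul hu1 b1 hs0.le (by norm_num)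
        _ = _ := one_mul _
    · rw [mul_pow, Real.sq_sqrt hq0.le, h4 r hr, hq]
      unfold ev
      ring
    · have e1 : T / (T / t r * Real.sqrt q) = t r / Real.sqrt q := by
        field_simp
      rw [e1]
      exact hΦ
  obtain ⟨a, ha1, ha2, ha3, ha4⟩ := hone s hs hE
  obtain ⟨a', hb1, hb2, hb3, hb4⟩ := hone s' hs' hE'
  rw [ha3, hb3]
  exact key hm he hL hT ha1 hb1 ha2 hb2 (hG x hx _ _ ha4 hb4)

end Pool.Agent.CRT.H58
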